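import Pool.Agent.U174.AK.Stm

/-! Project AK (helper174), package LOS3: the theorem of Łoś for the three-sorted language. -/

set_option autoImplicit false

open Filter IsLocalRing

namespace Pool.Agent.U342.AK.LOS3

open Pool.Agent.U174.AK

theorem ex_iff {α : Type} [Nonempty α] (U : Ultrafilter ℕ) (R : ℕ → α → Prop) :
    (∃ f : ℕ → α, ∀ᶠ j in (U : Filter ℕ), R j (f j)) ↔ ∀ᶠ j in (U : Filter ℕ), ∃ v, R j v := by
  classical
  constructor
  · rintro ⟨f, hf⟩
    exact hf.mono fun j hj => ⟨f j, hj⟩
  · intro h
    refine ⟨fun j => if hj : ∃ v, R j v then hj.choose else Classical.arbitrary α, ?_⟩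
    refine h.mono fun j hj => ?_
    beta_reduce
    rw [dif_pos hj]
    exact hj.choose_spec

theorem elim_eq {X : Type} {a : ℕ} {A B : Type} (π : A → B) (x : X → A) (x' : Fin a → A) :
    Sum.elim (fun i => π (x i)) (fun i => π (x' i)) = fun i => π (Sum.elim x x' i) := by
  funext i
  cases i <;> rfl

section
variable {K K' : Type} [Field K] [Field K'] {O : ValuationSubring K} {O' : ValuationSubring K'}
  {π : (ℕ → K) → K'} {πk : (ℕ → ResidueField O) → ResidueField O'}
  {πV : (ℕ → O.ValueGroup) → O'.ValueGroup}

theorem holds_iff (hπ : Function.Surjective π) (hk : Function.Surjective πk)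
    (hV : Function.Surjective πV)
    (hq : ∀ (X Y Z : Type) (φ : Q3 X Y Z) (x : X → ℕ → K) (y : Y → ℕ → ResidueField O)
      (z : Z → ℕ → O.ValueGroup),
      Q3.Holds O' (fun i => π (x i)) (fun i => πk (y i)) (fun i => πV (z i)) φ ↔
        ∀ᶠ j in (hyperfilter ℕ : Filter ℕ),
          Q3.Holds O (fun i => x i j) (fun i => y i j) (fun i => z i j) φ) :
    ∀ (n : ℕ) (X Y Z : Type) (φ : F3 n X Y Z) (x : X → ℕ → K) (y : Y → ℕ → ResidueField O)
      (z : Z → ℕ → O.ValueGroup),
      F3.Holds O' n φ (fun i => π (x i)) (fun i => πk (y i)) (fun i => πV (z i)) ↔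
        ∀ᶠ j in (hyperfilter ℕ : Filter ℕ),
          F3.Holds O n φ (fun i => x i j) (fun i => y i j) (fun i => z i j) := by
  intro n
  induction n with
  | zero => exact fun X Y Z φ x y z => hq X Y Z φ x y z
  | succ n ih =>
    rintro X Y Z ⟨a, b, c, φ⟩ x y z
    have key : ∀ f : ℕ → (Fin a → K) × (Fin b → ResidueField O) × (Fin c → O.ValueGroup),
        F3.Holds O' n φ (Sum.elim (fun i => π (x i)) (fun i => π fun j => (f j).1 i))
          (Sum.elim (fun i => πk (y i)) (fun i => πk fun j => (f j).2.1 i))
          (Sum.elim (fun i => πV (z i)) (fun i => πV fun j => (f j).2.2 i)) ↔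
        ∀ᶠ j in (hyperfilter ℕ : Filter ℕ),
          F3.Holds O n φ (Sum.elim (fun i => x i j) (f j).1) (Sum.elim (fun i => y i j) (f j).2.1)
            (Sum.elim (fun i => z i j) (f j).2.2) := by
      intro f
      rw [elim_eq π x (fun i j => (f j).1 i), elim_eq πk y (fun i j => (f j).2.1 i),
        elim_eq πV z (fun i j => (f j).2.2 i), ih]
      refine eventually_congr (Eventually.of_forall fun j => ?_)
      have e1 : (fun i => Sum.elim x (fun i j => (f j).1 i) i j)
          = Sum.elim (fun i => x i j) (f j).1 := by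
        funext i; cases i <;> rfl
      have e2 : (fun i => Sum.elim y (fun i j => (f j).2.1 i) i j)
          = Sum.elim (fun i => y i j) (f j).2.1 := by
        funext i; cases i <;> rfl
      have e3 : (fun i => Sum.elim z (fun i j => (f j).2.2 i) i j)
          = Sum.elim (fun i => z i j) (f j).2.2 := by
        funext i; cases i <;> rfl
      rw [e1, e2, e3]
    have lift : ∀ (x' : Fin a → K') (y' : Fin b → ResidueField O') (z' : Fin c → O'.ValueGroup),
        ∃ f : ℕ → (Fin a → K) × (Fin b → ResidueField O) × (Fin c → O.ValueGroup),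
          (fun i => π fun j => (f j).1 i) = x' ∧ (fun i => πk fun j => (f j).2.1 i) = y' ∧
            (fun i => πV fun j => (f j).2.2 i) = z' := by
      intro x' y' z'
      choose u hu using fun i => hπ (x' i)
      choose v hv using fun i => hk (y' i)
      choose w hw using fun i => hV (z' i)
      exact ⟨fun j => (fun i => u i j, fun i => v i j, fun i => w i j), funext hu, funext hv,
        funext hw⟩
    unfold F3.Holds
    split_ifs with hodd
    · constructor
      · rintro ⟨x', y', z', h⟩
        obtain ⟨f, rfl, rfl, rfl⟩ := lift x' y' z'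
        rw [key] at h
        exact h.mono fun j hj => ⟨_, _, _, hj⟩
      · intro h
        have h' : ∀ᶠ j in (hyperfilter ℕ : Filter ℕ),
            ∃ v : (Fin a → K) × (Fin b → ResidueField O) × (Fin c → O.ValueGroup),
              F3.Holds O n φ (Sum.elim (fun i => x i j) v.1) (Sum.elim (fun i => y i j) v.2.1)
                (Sum.elim (fun i => z i j) v.2.2) :=
          h.mono fun j ⟨x', y', z', hj⟩ => ⟨(x', y', z'), hj⟩
        obtain ⟨f, hf⟩ := (ex_iff _ _).mpr h'
        exact ⟨_, _, _, (key f).mpr hf⟩
    · constructor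
      · intro h
        by_contra hn
        rw [← Ultrafilter.eventually_not] at hn
        have h' : ∀ᶠ j in (hyperfilter ℕ : Filter ℕ),
            ∃ v : (Fin a → K) × (Fin b → ResidueField O) × (Fin c → O.ValueGroup),
              ¬ F3.Holds O n φ (Sum.elim (fun i => x i j) v.1) (Sum.elim (fun i => y i j) v.2.1)
                (Sum.elim (fun i => z i j) v.2.2) := by
          refine hn.mono fun j hj => ?_
          push Not at hj
          obtain ⟨x', y', z', hj⟩ := hj
          exact ⟨(x', y', z'), hj⟩
        obtain ⟨f, hf⟩ := (ex_iff _ _).mpr h'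
        rw [Ultrafilter.eventually_not] at hf
        exact hf ((key f).mp (h _ _ _))
      · intro h x' y' z'
        obtain ⟨f, rfl, rfl, rfl⟩ := lift x' y' z'
        rw [key]
        exact h.mono fun j hj => hj _ _ _

end

theorem t_LOS3 : S_URES → S_LOS3 := by
  intro hU K K' _ _ O O' π hu n
  obtain ⟨πk, πG, πV, hk, -, hV, hq⟩ := hU K K' O O' π hu
  have H := holds_iff (π := π) hu.surj hk.surj hV hq n Empty Empty Empty
  ext φ
  change F3.Holds O' n φ Empty.elim Empty.elim Empty.elim
    ↔ F3.Holds O n φ Empty.elim Empty.elim Empty.elim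
  have h := H φ Empty.elim Empty.elim Empty.elim
  have e1 : (fun i : Empty => π (Empty.elim i)) = Empty.elim := by
    funext i; exact i.elim
  have e2 : (fun i : Empty => πk (Empty.elim i)) = Empty.elim := by
    funext i; exact i.elim
  have e3 : (fun i : Empty => πV (Empty.elim i)) = Empty.elim := by
    funext i; exact i.elim
  rw [e1, e2, e3] at h
  rw [h]
  have g1 : ∀ j : ℕ, (fun i : Empty => (Empty.elim i : ℕ → K) j) = Empty.elim := by
    intro j; funext i; exact i.elim
  have g2 : ∀ j : ℕ, (fun i : Empty => (Empty.elim i : ℕ → ResidueField O) j) = Empty.elim := by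
    intro j; funext i; exact i.elim
  have g3 : ∀ j : ℕ, (fun i : Empty => (Empty.elim i : ℕ → O.ValueGroup) j) = Empty.elim := by
    intro j; funext i; exact i.elim
  simp only [g1, g2, g3, eventually_const]

end Pool.Agent.U342.AK.LOS3
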